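import Pool.Agent.X29.Tug.Defs

set_option autoImplicit false

/-! Chunks 0, ..., 76 of the computation. -/

namespace Pool.Agent.X29.Tug

theorem c47i : Inv 47 4 2 13 6 5 :=
  loop_spec (G := 720) (B := 6) (by decide) (by norm_num) _ _ _ _ _ _ 6 _ _ _ _ _ _ inv11 (by norm_num)
    (by norm_num) (by norm_num) (by decide +kernel)

theorem c0 : Inv 1919 6 6 292 139 128 :=
  loop_spec (G := 5502622159812088949850305428800254892961651752960000000000) (B := 46) (by decide +kernel) (by norm_num) _ _ _ _ _ _ 312 _ _ _ _ _ _ c47i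
    (by norm_num) (by norm_num) (by norm_num) (by decide +kernel)

theorem c1 : Inv 13919 6 6 1644 792 764 :=
  loop_spec F_eq (by norm_num) _ _ _ _ _ _ 2000 _ _ _ _ _ _ c0
    (by norm_num) (by norm_num) (by norm_num) (by decide +kernel)

theorem c2 : Inv 25919 6 10 2849 1355 1339 :=
  loop_spec F_eq (by norm_num) _ _ _ _ _ _ 2000 _ _ _ _ _ _ c1
    (by norm_num) (by norm_num) (by norm_num) (by decide +kernel)

theorem c3 : Inv 37919 12 10 4008 1927 1877 :=
  loop_spec F_eq (by norm_num) _ _ _ _ _ _ 2000 _ _ _ _ _ _ c2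
    (by norm_num) (by norm_num) (by norm_num) (by decide +kernel)

theorem c4 : Inv 49919 28 14 5122 2454 2420 :=
  loop_spec F_eq (by norm_num) _ _ _ _ _ _ 2000 _ _ _ _ _ _ c3
    (by norm_num) (by norm_num) (by norm_num) (by decide +kernel)

theorem c5 : Inv 61919 10 30 6222 2984 2943 :=
  loop_spec F_eq (by norm_num) _ _ _ _ _ _ 2000 _ _ _ _ _ _ c4
    (by norm_num) (by norm_num) (by norm_num) (by decide +kernel)

theorem c6 : Inv 73919 12 10 7294 3500 3458 :=
  loop_spec F_eq (by norm_num) _ _ _ _ _ _ 2000 _ _ _ _ _ _ c5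
    (by norm_num) (by norm_num) (by norm_num) (by decide +kernel)

theorem c7 : Inv 85919 10 6 8357 4009 3956 :=
  loop_spec F_eq (by norm_num) _ _ _ _ _ _ 2000 _ _ _ _ _ _ c6
    (by norm_num) (by norm_num) (by norm_num) (by decide +kernel)

theorem c8 : Inv 97919 36 4 9409 4520 4458 :=
  loop_spec F_eq (by norm_num) _ _ _ _ _ _ 2000 _ _ _ _ _ _ c7
    (by norm_num) (by norm_num) (by norm_num) (by decide +kernel)

theorem c9 : Inv 109919 6 10 10447 5016 4963 :=
  loop_spec F_eq (by norm_num) _ _ _ _ _ _ 2000 _ _ _ _ _ _ c8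
    (by norm_num) (by norm_num) (by norm_num) (by decide +kernel)

theorem c10 : Inv 121919 10 20 11465 5500 5451 :=
  loop_spec F_eq (by norm_num) _ _ _ _ _ _ 2000 _ _ _ _ _ _ c9
    (by norm_num) (by norm_num) (by norm_num) (by decide +kernel)

theorem c11 : Inv 133919 42 4 12487 6003 5931 :=
  loop_spec F_eq (by norm_num) _ _ _ _ _ _ 2000 _ _ _ _ _ _ c10
    (by norm_num) (by norm_num) (by norm_num) (by decide +kernel)

theorem c12 : Inv 145919 16 6 13498 6484 6415 :=
  loop_spec F_eq (by norm_num) _ _ _ _ _ _ 2000 _ _ _ _ _ _ c11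
    (by norm_num) (by norm_num) (by norm_num) (by decide +kernel)

theorem c13 : Inv 157919 12 6 14515 6979 6902 :=
  loop_spec F_eq (by norm_num) _ _ _ _ _ _ 2000 _ _ _ _ _ _ c12
    (by norm_num) (by norm_num) (by norm_num) (by decide +kernel)

theorem c14 : Inv 169919 6 4 15488 7450 7368 :=
  loop_spec F_eq (by norm_num) _ _ _ _ _ _ 2000 _ _ _ _ _ _ c13
    (by norm_num) (by norm_num) (by norm_num) (by decide +kernel)

theorem c15 : Inv 181919 6 10 16483 7916 7861 :=
  loop_spec F_eq (by norm_num) _ _ _ _ _ _ 2000 _ _ _ _ _ _ c14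
    (by norm_num) (by norm_num) (by norm_num) (by decide +kernel)

theorem c16 : Inv 193919 28 8 17491 8397 8337 :=
  loop_spec F_eq (by norm_num) _ _ _ _ _ _ 2000 _ _ _ _ _ _ c15
    (by norm_num) (by norm_num) (by norm_num) (by decide +kernel)

theorem c17 : Inv 205919 6 30 18454 8871 8794 :=
  loop_spec F_eq (by norm_num) _ _ _ _ _ _ 2000 _ _ _ _ _ _ c16
    (by norm_num) (by norm_num) (by norm_num) (by decide +kernel)

theorem c18 : Inv 217919 10 2 19437 9334 9278 :=
  loop_spec F_eq (by norm_num) _ _ _ _ _ _ 2000 _ _ _ _ _ _ c17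
    (by norm_num) (by norm_num) (by norm_num) (by decide +kernel)

theorem c19 : Inv 229919 16 6 20429 9806 9759 :=
  loop_spec F_eq (by norm_num) _ _ _ _ _ _ 2000 _ _ _ _ _ _ c18
    (by norm_num) (by norm_num) (by norm_num) (by decide +kernel)

theorem c20 : Inv 241919 12 4 21381 10264 10228 :=
  loop_spec F_eq (by norm_num) _ _ _ _ _ _ 2000 _ _ _ _ _ _ c19
    (by norm_num) (by norm_num) (by norm_num) (by decide +kernel)

theorem c21 : Inv 253919 10 2 22353 10721 10695 :=
  loop_spec F_eq (by norm_num) _ _ _ _ _ _ 2000 _ _ _ _ _ _ c20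
    (by norm_num) (by norm_num) (by norm_num) (by decide +kernel)

theorem c22 : Inv 265919 28 8 23303 11183 11138 :=
  loop_spec F_eq (by norm_num) _ _ _ _ _ _ 2000 _ _ _ _ _ _ c21
    (by norm_num) (by norm_num) (by norm_num) (by decide +kernel)

theorem c23 : Inv 277919 16 6 24273 11640 11622 :=
  loop_spec F_eq (by norm_num) _ _ _ _ _ _ 2000 _ _ _ _ _ _ c22
    (by norm_num) (by norm_num) (by norm_num) (by decide +kernel)

theorem c24 : Inv 289919 22 8 25216 12102 12070 :=
  loop_spec F_eq (by norm_num) _ _ _ _ _ _ 2000 _ _ _ _ _ _ c23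
    (by norm_num) (by norm_num) (by norm_num) (by decide +kernel)

theorem c25 : Inv 301919 6 6 26155 12550 12519 :=
  loop_spec F_eq (by norm_num) _ _ _ _ _ _ 2000 _ _ _ _ _ _ c24
    (by norm_num) (by norm_num) (by norm_num) (by decide +kernel)

theorem c26 : Inv 313919 10 12 27107 13013 12969 :=
  loop_spec F_eq (by norm_num) _ _ _ _ _ _ 2000 _ _ _ _ _ _ c25
    (by norm_num) (by norm_num) (by norm_num) (by decide +kernel)

theorem c27 : Inv 325919 18 10 28082 13480 13439 :=
  loop_spec F_eq (by norm_num) _ _ _ _ _ _ 2000 _ _ _ _ _ _ c26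
    (by norm_num) (by norm_num) (by norm_num) (by decide +kernel)

theorem c28 : Inv 337919 12 4 29030 13941 13890 :=
  loop_spec F_eq (by norm_num) _ _ _ _ _ _ 2000 _ _ _ _ _ _ c27
    (by norm_num) (by norm_num) (by norm_num) (by decide +kernel)

theorem c29 : Inv 349919 6 6 29967 14375 14353 :=
  loop_spec F_eq (by norm_num) _ _ _ _ _ _ 2000 _ _ _ _ _ _ c28
    (by norm_num) (by norm_num) (by norm_num) (by decide +kernel)

theorem c30 : Inv 361919 10 6 30895 14823 14790 :=
  loop_spec F_eq (by norm_num) _ _ _ _ _ _ 2000 _ _ _ _ _ _ c29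
    (by norm_num) (by norm_num) (by norm_num) (by decide +kernel)

theorem c31 : Inv 373919 10 6 31813 15268 15228 :=
  loop_spec F_eq (by norm_num) _ _ _ _ _ _ 2000 _ _ _ _ _ _ c30
    (by norm_num) (by norm_num) (by norm_num) (by decide +kernel)

theorem c32 : Inv 385919 12 6 32754 15722 15688 :=
  loop_spec F_eq (by norm_num) _ _ _ _ _ _ 2000 _ _ _ _ _ _ c31
    (by norm_num) (by norm_num) (by norm_num) (by decide +kernel)

theorem c33 : Inv 397919 12 10 33690 16175 16139 :=
  loop_spec F_eq (by norm_num) _ _ _ _ _ _ 2000 _ _ _ _ _ _ c32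
    (by norm_num) (by norm_num) (by norm_num) (by decide +kernel)

theorem c34 : Inv 409919 10 8 34605 16610 16581 :=
  loop_spec F_eq (by norm_num) _ _ _ _ _ _ 2000 _ _ _ _ _ _ c33
    (by norm_num) (by norm_num) (by norm_num) (by decide +kernel)

theorem c35 : Inv 421919 6 6 35533 17057 17024 :=
  loop_spec F_eq (by norm_num) _ _ _ _ _ _ 2000 _ _ _ _ _ _ c34
    (by norm_num) (by norm_num) (by norm_num) (by decide +kernel)

theorem c36 : Inv 433919 30 6 36475 17503 17487 :=
  loop_spec F_eq (by norm_num) _ _ _ _ _ _ 2000 _ _ _ _ _ _ c35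
    (by norm_num) (by norm_num) (by norm_num) (by decide +kernel)

theorem c37 : Inv 445919 28 8 37409 17958 17929 :=
  loop_spec F_eq (by norm_num) _ _ _ _ _ _ 2000 _ _ _ _ _ _ c36
    (by norm_num) (by norm_num) (by norm_num) (by decide +kernel)

theorem c38 : Inv 457919 6 10 38310 18394 18369 :=
  loop_spec F_eq (by norm_num) _ _ _ _ _ _ 2000 _ _ _ _ _ _ c37
    (by norm_num) (by norm_num) (by norm_num) (by decide +kernel)

theorem c39 : Inv 469919 12 16 39216 18827 18812 :=
  loop_spec F_eq (by norm_num) _ _ _ _ _ _ 2000 _ _ _ _ _ _ c38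
    (by norm_num) (by norm_num) (by norm_num) (by decide +kernel)

theorem c40 : Inv 481919 10 26 40156 19281 19264 :=
  loop_spec F_eq (by norm_num) _ _ _ _ _ _ 2000 _ _ _ _ _ _ c39
    (by norm_num) (by norm_num) (by norm_num) (by decide +kernel)

theorem c41 : Inv 493919 22 20 41060 19712 19704 :=
  loop_spec F_eq (by norm_num) _ _ _ _ _ _ 2000 _ _ _ _ _ _ c40
    (by norm_num) (by norm_num) (by norm_num) (by decide +kernel)

theorem c42 : Inv 505919 12 30 41986 20146 20151 :=
  loop_spec F_eq (by norm_num) _ _ _ _ _ _ 2000 _ _ _ _ _ _ c41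
    (by norm_num) (by norm_num) (by norm_num) (by decide +kernel)

theorem c43 : Inv 517919 18 24 42898 20589 20584 :=
  loop_spec F_eq (by norm_num) _ _ _ _ _ _ 2000 _ _ _ _ _ _ c42
    (by norm_num) (by norm_num) (by norm_num) (by decide +kernel)

theorem c44 : Inv 529919 48 24 43814 21039 21027 :=
  loop_spec F_eq (by norm_num) _ _ _ _ _ _ 2000 _ _ _ _ _ _ c43
    (by norm_num) (by norm_num) (by norm_num) (by decide +kernel)

theorem c45 : Inv 541919 18 12 44714 21474 21456 :=
  loop_spec F_eq (by norm_num) _ _ _ _ _ _ 2000 _ _ _ _ _ _ c44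
    (by norm_num) (by norm_num) (by norm_num) (by decide +kernel)

theorem c46 : Inv 553919 18 4 45619 21920 21888 :=
  loop_spec F_eq (by norm_num) _ _ _ _ _ _ 2000 _ _ _ _ _ _ c45
    (by norm_num) (by norm_num) (by norm_num) (by decide +kernel)

theorem c47 : Inv 565919 10 2 46517 22351 22322 :=
  loop_spec F_eq (by norm_num) _ _ _ _ _ _ 2000 _ _ _ _ _ _ c46
    (by norm_num) (by norm_num) (by norm_num) (by decide +kernel)

theorem c48 : Inv 577919 10 8 47427 22788 22761 :=
  loop_spec F_eq (by norm_num) _ _ _ _ _ _ 2000 _ _ _ _ _ _ c47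
    (by norm_num) (by norm_num) (by norm_num) (by decide +kernel)

theorem c49 : Inv 589919 16 26 48346 23243 23186 :=
  loop_spec F_eq (by norm_num) _ _ _ _ _ _ 2000 _ _ _ _ _ _ c48
    (by norm_num) (by norm_num) (by norm_num) (by decide +kernel)

theorem c50 : Inv 601919 16 6 49241 23665 23630 :=
  loop_spec F_eq (by norm_num) _ _ _ _ _ _ 2000 _ _ _ _ _ _ c49
    (by norm_num) (by norm_num) (by norm_num) (by decide +kernel)

theorem c51 : Inv 613919 16 14 50153 24113 24053 :=
  loop_spec F_eq (by norm_num) _ _ _ _ _ _ 2000 _ _ _ _ _ _ c50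
    (by norm_num) (by norm_num) (by norm_num) (by decide +kernel)

theorem c52 : Inv 625919 6 4 51048 24554 24478 :=
  loop_spec F_eq (by norm_num) _ _ _ _ _ _ 2000 _ _ _ _ _ _ c51
    (by norm_num) (by norm_num) (by norm_num) (by decide +kernel)

theorem c53 : Inv 637919 10 26 51939 24969 24918 :=
  loop_spec F_eq (by norm_num) _ _ _ _ _ _ 2000 _ _ _ _ _ _ c52
    (by norm_num) (by norm_num) (by norm_num) (by decide +kernel)

theorem c54 : Inv 649919 12 10 52825 25399 25348 :=
  loop_spec F_eq (by norm_num) _ _ _ _ _ _ 2000 _ _ _ _ _ _ c53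
    (by norm_num) (by norm_num) (by norm_num) (by decide +kernel)

theorem c55 : Inv 661919 10 12 53709 25827 25774 :=
  loop_spec F_eq (by norm_num) _ _ _ _ _ _ 2000 _ _ _ _ _ _ c54
    (by norm_num) (by norm_num) (by norm_num) (by decide +kernel)

theorem c56 : Inv 673919 28 12 54606 26259 26211 :=
  loop_spec F_eq (by norm_num) _ _ _ _ _ _ 2000 _ _ _ _ _ _ c55
    (by norm_num) (by norm_num) (by norm_num) (by decide +kernel)

theorem c57 : Inv 685919 12 48 55499 26690 26645 :=
  loop_spec F_eq (by norm_num) _ _ _ _ _ _ 2000 _ _ _ _ _ _ c56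
    (by norm_num) (by norm_num) (by norm_num) (by decide +kernel)

theorem c58 : Inv 697919 6 4 56401 27132 27074 :=
  loop_spec F_eq (by norm_num) _ _ _ _ _ _ 2000 _ _ _ _ _ _ c57
    (by norm_num) (by norm_num) (by norm_num) (by decide +kernel)

theorem c59 : Inv 709919 6 4 57298 27560 27512 :=
  loop_spec F_eq (by norm_num) _ _ _ _ _ _ 2000 _ _ _ _ _ _ c58
    (by norm_num) (by norm_num) (by norm_num) (by decide +kernel)

theorem c60 : Inv 721919 10 18 58177 27993 27928 :=
  loop_spec F_eq (by norm_num) _ _ _ _ _ _ 2000 _ _ _ _ _ _ c59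
    (by norm_num) (by norm_num) (by norm_num) (by decide +kernel)

theorem c61 : Inv 733919 36 4 59070 28419 28362 :=
  loop_spec F_eq (by norm_num) _ _ _ _ _ _ 2000 _ _ _ _ _ _ c60
    (by norm_num) (by norm_num) (by norm_num) (by decide +kernel)

theorem c62 : Inv 745919 16 30 59934 28835 28779 :=
  loop_spec F_eq (by norm_num) _ _ _ _ _ _ 2000 _ _ _ _ _ _ c61
    (by norm_num) (by norm_num) (by norm_num) (by decide +kernel)

theorem c63 : Inv 757919 10 6 60815 29236 29220 :=
  loop_spec F_eq (by norm_num) _ _ _ _ _ _ 2000 _ _ _ _ _ _ c62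
    (by norm_num) (by norm_num) (by norm_num) (by decide +kernel)

theorem c64 : Inv 769919 16 32 61723 29671 29650 :=
  loop_spec F_eq (by norm_num) _ _ _ _ _ _ 2000 _ _ _ _ _ _ c63
    (by norm_num) (by norm_num) (by norm_num) (by decide +kernel)

theorem c65 : Inv 781919 22 8 62610 30106 30074 :=
  loop_spec F_eq (by norm_num) _ _ _ _ _ _ 2000 _ _ _ _ _ _ c64
    (by norm_num) (by norm_num) (by norm_num) (by decide +kernel)

theorem c66 : Inv 793919 18 12 63499 30544 30486 :=
  loop_spec F_eq (by norm_num) _ _ _ _ _ _ 2000 _ _ _ _ _ _ c65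
    (by norm_num) (by norm_num) (by norm_num) (by decide +kernel)

theorem c67 : Inv 805919 6 12 64394 30978 30923 :=
  loop_spec F_eq (by norm_num) _ _ _ _ _ _ 2000 _ _ _ _ _ _ c66
    (by norm_num) (by norm_num) (by norm_num) (by decide +kernel)

theorem c68 : Inv 817919 6 6 65265 31395 31344 :=
  loop_spec F_eq (by norm_num) _ _ _ _ _ _ 2000 _ _ _ _ _ _ c67
    (by norm_num) (by norm_num) (by norm_num) (by decide +kernel)

theorem c69 : Inv 829919 36 6 66155 31811 31782 :=
  loop_spec F_eq (by norm_num) _ _ _ _ _ _ 2000 _ _ _ _ _ _ c68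
    (by norm_num) (by norm_num) (by norm_num) (by decide +kernel)

theorem c70 : Inv 841919 6 24 67022 32237 32192 :=
  loop_spec F_eq (by norm_num) _ _ _ _ _ _ 2000 _ _ _ _ _ _ c69
    (by norm_num) (by norm_num) (by norm_num) (by decide +kernel)

theorem c71 : Inv 853919 6 10 67898 32652 32603 :=
  loop_spec F_eq (by norm_num) _ _ _ _ _ _ 2000 _ _ _ _ _ _ c70
    (by norm_num) (by norm_num) (by norm_num) (by decide +kernel)

theorem c72 : Inv 865919 30 12 68790 33082 33032 :=
  loop_spec F_eq (by norm_num) _ _ _ _ _ _ 2000 _ _ _ _ _ _ c71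
    (by norm_num) (by norm_num) (by norm_num) (by decide +kernel)

theorem c73 : Inv 877919 10 2 69665 33524 33446 :=
  loop_spec F_eq (by norm_num) _ _ _ _ _ _ 2000 _ _ _ _ _ _ c72
    (by norm_num) (by norm_num) (by norm_num) (by decide +kernel)

theorem c74 : Inv 889919 10 2 70548 33951 33877 :=
  loop_spec F_eq (by norm_num) _ _ _ _ _ _ 2000 _ _ _ _ _ _ c73
    (by norm_num) (by norm_num) (by norm_num) (by decide +kernel)

theorem c75 : Inv 901919 10 2 71413 34378 34292 :=
  loop_spec F_eq (by norm_num) _ _ _ _ _ _ 2000 _ _ _ _ _ _ c74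
    (by norm_num) (by norm_num) (by norm_num) (by decide +kernel)

theorem c76 : Inv 913919 12 18 72288 34800 34711 :=
  loop_spec F_eq (by norm_num) _ _ _ _ _ _ 2000 _ _ _ _ _ _ c75
    (by norm_num) (by norm_num) (by norm_num) (by decide +kernel)

theorem c77 : Inv 925919 6 12 73178 35223 35144 :=
  loop_spec F_eq (by norm_num) _ _ _ _ _ _ 2000 _ _ _ _ _ _ c76
    (by norm_num) (by norm_num) (by norm_num) (by decide +kernel)

end Pool.Agent.X29.Tug
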