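import Pool.Agent.X29.Tug.C0

set_option autoImplicit false

/-! Chunks 77, ..., 153 of the computation. -/

namespace Pool.Agent.X29.Tug

theorem c78 : Inv 937919 16 2 74040 35633 35563 :=
  loop_spec F_eq (by norm_num) _ _ _ _ _ _ 2000 _ _ _ _ _ _ c77
    (by norm_num) (by norm_num) (by norm_num) (by decide +kernel)

theorem c79 : Inv 949919 16 12 74895 36047 35983 :=
  loop_spec F_eq (by norm_num) _ _ _ _ _ _ 2000 _ _ _ _ _ _ c78
    (by norm_num) (by norm_num) (by norm_num) (by decide +kernel)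

theorem c80 : Inv 961919 40 8 75765 36460 36402 :=
  loop_spec F_eq (by norm_num) _ _ _ _ _ _ 2000 _ _ _ _ _ _ c79
    (by norm_num) (by norm_num) (by norm_num) (by decide +kernel)

theorem c81 : Inv 973919 18 4 76638 36892 36817 :=
  loop_spec F_eq (by norm_num) _ _ _ _ _ _ 2000 _ _ _ _ _ _ c80
    (by norm_num) (by norm_num) (by norm_num) (by decide +kernel)

theorem c82 : Inv 985919 16 26 77484 37302 37224 :=
  loop_spec F_eq (by norm_num) _ _ _ _ _ _ 2000 _ _ _ _ _ _ c81
    (by norm_num) (by norm_num) (by norm_num) (by decide +kernel)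

theorem c83 : Inv 997919 22 6 78352 37713 37651 :=
  loop_spec F_eq (by norm_num) _ _ _ _ _ _ 2000 _ _ _ _ _ _ c82
    (by norm_num) (by norm_num) (by norm_num) (by decide +kernel)

theorem c84 : Inv 1009919 10 8 79243 38135 38083 :=
  loop_spec F_eq (by norm_num) _ _ _ _ _ _ 2000 _ _ _ _ _ _ c83
    (by norm_num) (by norm_num) (by norm_num) (by decide +kernel)

theorem c85 : Inv 1021919 12 10 80118 38567 38492 :=
  loop_spec F_eq (by norm_num) _ _ _ _ _ _ 2000 _ _ _ _ _ _ c84
    (by norm_num) (by norm_num) (by norm_num) (by decide +kernel)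

theorem c86 : Inv 1033919 52 24 80978 38984 38893 :=
  loop_spec F_eq (by norm_num) _ _ _ _ _ _ 2000 _ _ _ _ _ _ c85
    (by norm_num) (by norm_num) (by norm_num) (by decide +kernel)

theorem c87 : Inv 1045919 12 4 81841 39404 39311 :=
  loop_spec F_eq (by norm_num) _ _ _ _ _ _ 2000 _ _ _ _ _ _ c86
    (by norm_num) (by norm_num) (by norm_num) (by decide +kernel)

theorem c88 : Inv 1057919 12 10 82678 39805 39727 :=
  loop_spec F_eq (by norm_num) _ _ _ _ _ _ 2000 _ _ _ _ _ _ c87
    (by norm_num) (by norm_num) (by norm_num) (by decide +kernel)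

theorem c89 : Inv 1069919 52 14 83537 40219 40133 :=
  loop_spec F_eq (by norm_num) _ _ _ _ _ _ 2000 _ _ _ _ _ _ c88
    (by norm_num) (by norm_num) (by norm_num) (by decide +kernel)

theorem c90 : Inv 1081919 12 6 84417 40658 40542 :=
  loop_spec F_eq (by norm_num) _ _ _ _ _ _ 2000 _ _ _ _ _ _ c89
    (by norm_num) (by norm_num) (by norm_num) (by decide +kernel)

theorem c91 : Inv 1093919 12 6 85276 41077 40960 :=
  loop_spec F_eq (by norm_num) _ _ _ _ _ _ 2000 _ _ _ _ _ _ c90
    (by norm_num) (by norm_num) (by norm_num) (by decide +kernel)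

theorem c92 : Inv 1105919 6 22 86150 41512 41366 :=
  loop_spec F_eq (by norm_num) _ _ _ _ _ _ 2000 _ _ _ _ _ _ c91
    (by norm_num) (by norm_num) (by norm_num) (by decide +kernel)

theorem c93 : Inv 1117919 6 12 87028 41943 41781 :=
  loop_spec F_eq (by norm_num) _ _ _ _ _ _ 2000 _ _ _ _ _ _ c92
    (by norm_num) (by norm_num) (by norm_num) (by decide +kernel)

theorem c94 : Inv 1129919 22 8 87879 42346 42199 :=
  loop_spec F_eq (by norm_num) _ _ _ _ _ _ 2000 _ _ _ _ _ _ c93
    (by norm_num) (by norm_num) (by norm_num) (by decide +kernel)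

theorem c95 : Inv 1141919 10 8 88736 42760 42610 :=
  loop_spec F_eq (by norm_num) _ _ _ _ _ _ 2000 _ _ _ _ _ _ c94
    (by norm_num) (by norm_num) (by norm_num) (by decide +kernel)

theorem c96 : Inv 1153919 28 20 89587 43159 43031 :=
  loop_spec F_eq (by norm_num) _ _ _ _ _ _ 2000 _ _ _ _ _ _ c95
    (by norm_num) (by norm_num) (by norm_num) (by decide +kernel)

theorem c97 : Inv 1165919 10 6 90474 43588 43447 :=
  loop_spec F_eq (by norm_num) _ _ _ _ _ _ 2000 _ _ _ _ _ _ c96
    (by norm_num) (by norm_num) (by norm_num) (by decide +kernel)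

theorem c98 : Inv 1177919 18 24 91328 44007 43853 :=
  loop_spec F_eq (by norm_num) _ _ _ _ _ _ 2000 _ _ _ _ _ _ c97
    (by norm_num) (by norm_num) (by norm_num) (by decide +kernel)

theorem c99 : Inv 1189919 12 6 92220 44425 44305 :=
  loop_spec F_eq (by norm_num) _ _ _ _ _ _ 2000 _ _ _ _ _ _ c98
    (by norm_num) (by norm_num) (by norm_num) (by decide +kernel)

theorem c100 : Inv 1201919 10 36 93064 44830 44710 :=
  loop_spec F_eq (by norm_num) _ _ _ _ _ _ 2000 _ _ _ _ _ _ c99
    (by norm_num) (by norm_num) (by norm_num) (by decide +kernel)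

theorem c101 : Inv 1213919 6 4 93909 45229 45127 :=
  loop_spec F_eq (by norm_num) _ _ _ _ _ _ 2000 _ _ _ _ _ _ c100
    (by norm_num) (by norm_num) (by norm_num) (by decide +kernel)

theorem c102 : Inv 1225919 10 2 94761 45649 45530 :=
  loop_spec F_eq (by norm_num) _ _ _ _ _ _ 2000 _ _ _ _ _ _ c101
    (by norm_num) (by norm_num) (by norm_num) (by decide +kernel)

theorem c103 : Inv 1237919 22 20 95589 46055 45930 :=
  loop_spec F_eq (by norm_num) _ _ _ _ _ _ 2000 _ _ _ _ _ _ c102
    (by norm_num) (by norm_num) (by norm_num) (by decide +kernel)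

theorem c104 : Inv 1249919 18 28 96464 46480 46345 :=
  loop_spec F_eq (by norm_num) _ _ _ _ _ _ 2000 _ _ _ _ _ _ c103
    (by norm_num) (by norm_num) (by norm_num) (by decide +kernel)

theorem c105 : Inv 1261919 6 12 97315 46899 46743 :=
  loop_spec F_eq (by norm_num) _ _ _ _ _ _ 2000 _ _ _ _ _ _ c104
    (by norm_num) (by norm_num) (by norm_num) (by decide +kernel)

theorem c106 : Inv 1273919 12 4 98191 47309 47178 :=
  loop_spec F_eq (by norm_num) _ _ _ _ _ _ 2000 _ _ _ _ _ _ c105
    (by norm_num) (by norm_num) (by norm_num) (by decide +kernel)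

theorem c107 : Inv 1285919 6 10 99030 47705 47594 :=
  loop_spec F_eq (by norm_num) _ _ _ _ _ _ 2000 _ _ _ _ _ _ c106
    (by norm_num) (by norm_num) (by norm_num) (by decide +kernel)

theorem c108 : Inv 1297919 46 20 99882 48128 47999 :=
  loop_spec F_eq (by norm_num) _ _ _ _ _ _ 2000 _ _ _ _ _ _ c107
    (by norm_num) (by norm_num) (by norm_num) (by decide +kernel)

theorem c109 : Inv 1309919 12 24 100722 48536 48402 :=
  loop_spec F_eq (by norm_num) _ _ _ _ _ _ 2000 _ _ _ _ _ _ c108
    (by norm_num) (by norm_num) (by norm_num) (by decide +kernel)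

theorem c110 : Inv 1321919 22 6 101570 48946 48808 :=
  loop_spec F_eq (by norm_num) _ _ _ _ _ _ 2000 _ _ _ _ _ _ c109
    (by norm_num) (by norm_num) (by norm_num) (by decide +kernel)

theorem c111 : Inv 1333919 10 8 102423 49356 49230 :=
  loop_spec F_eq (by norm_num) _ _ _ _ _ _ 2000 _ _ _ _ _ _ c110
    (by norm_num) (by norm_num) (by norm_num) (by decide +kernel)

theorem c112 : Inv 1345919 6 24 103273 49759 49649 :=
  loop_spec F_eq (by norm_num) _ _ _ _ _ _ 2000 _ _ _ _ _ _ c111
    (by norm_num) (by norm_num) (by norm_num) (by decide +kernel)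

theorem c113 : Inv 1357919 12 6 104108 50169 50041 :=
  loop_spec F_eq (by norm_num) _ _ _ _ _ _ 2000 _ _ _ _ _ _ c112
    (by norm_num) (by norm_num) (by norm_num) (by decide +kernel)

theorem c114 : Inv 1369919 22 14 104962 50579 50453 :=
  loop_spec F_eq (by norm_num) _ _ _ _ _ _ 2000 _ _ _ _ _ _ c113
    (by norm_num) (by norm_num) (by norm_num) (by decide +kernel)

theorem c115 : Inv 1381919 12 6 105828 50988 50868 :=
  loop_spec F_eq (by norm_num) _ _ _ _ _ _ 2000 _ _ _ _ _ _ c114
    (by norm_num) (by norm_num) (by norm_num) (by decide +kernel)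

theorem c116 : Inv 1393919 6 22 106654 51387 51271 :=
  loop_spec F_eq (by norm_num) _ _ _ _ _ _ 2000 _ _ _ _ _ _ c115
    (by norm_num) (by norm_num) (by norm_num) (by decide +kernel)

theorem c117 : Inv 1405919 40 38 107520 51809 51681 :=
  loop_spec F_eq (by norm_num) _ _ _ _ _ _ 2000 _ _ _ _ _ _ c116
    (by norm_num) (by norm_num) (by norm_num) (by decide +kernel)

theorem c118 : Inv 1417919 12 6 108347 52208 52095 :=
  loop_spec F_eq (by norm_num) _ _ _ _ _ _ 2000 _ _ _ _ _ _ c117
    (by norm_num) (by norm_num) (by norm_num) (by decide +kernel)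

theorem c119 : Inv 1429919 6 6 109200 52619 52511 :=
  loop_spec F_eq (by norm_num) _ _ _ _ _ _ 2000 _ _ _ _ _ _ c118
    (by norm_num) (by norm_num) (by norm_num) (by decide +kernel)

theorem c120 : Inv 1441919 36 4 110062 53042 52916 :=
  loop_spec F_eq (by norm_num) _ _ _ _ _ _ 2000 _ _ _ _ _ _ c119
    (by norm_num) (by norm_num) (by norm_num) (by decide +kernel)

theorem c121 : Inv 1453919 6 4 110903 53433 53330 :=
  loop_spec F_eq (by norm_num) _ _ _ _ _ _ 2000 _ _ _ _ _ _ c120
    (by norm_num) (by norm_num) (by norm_num) (by decide +kernel)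

theorem c122 : Inv 1465919 18 12 111766 53850 53734 :=
  loop_spec F_eq (by norm_num) _ _ _ _ _ _ 2000 _ _ _ _ _ _ c121
    (by norm_num) (by norm_num) (by norm_num) (by decide +kernel)

theorem c123 : Inv 1477919 6 6 112595 54253 54120 :=
  loop_spec F_eq (by norm_num) _ _ _ _ _ _ 2000 _ _ _ _ _ _ c122
    (by norm_num) (by norm_num) (by norm_num) (by decide +kernel)

theorem c124 : Inv 1489919 10 6 113452 54661 54548 :=
  loop_spec F_eq (by norm_num) _ _ _ _ _ _ 2000 _ _ _ _ _ _ c123
    (by norm_num) (by norm_num) (by norm_num) (by decide +kernel)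

theorem c125 : Inv 1501919 10 8 114299 55062 54963 :=
  loop_spec F_eq (by norm_num) _ _ _ _ _ _ 2000 _ _ _ _ _ _ c124
    (by norm_num) (by norm_num) (by norm_num) (by decide +kernel)

theorem c126 : Inv 1513919 6 4 115170 55482 55391 :=
  loop_spec F_eq (by norm_num) _ _ _ _ _ _ 2000 _ _ _ _ _ _ c125
    (by norm_num) (by norm_num) (by norm_num) (by decide +kernel)

theorem c127 : Inv 1525919 42 4 115998 55877 55797 :=
  loop_spec F_eq (by norm_num) _ _ _ _ _ _ 2000 _ _ _ _ _ _ c126
    (by norm_num) (by norm_num) (by norm_num) (by decide +kernel)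

theorem c128 : Inv 1537919 22 8 116817 56265 56193 :=
  loop_spec F_eq (by norm_num) _ _ _ _ _ _ 2000 _ _ _ _ _ _ c127
    (by norm_num) (by norm_num) (by norm_num) (by decide +kernel)

theorem c129 : Inv 1549919 22 14 117654 56666 56603 :=
  loop_spec F_eq (by norm_num) _ _ _ _ _ _ 2000 _ _ _ _ _ _ c128
    (by norm_num) (by norm_num) (by norm_num) (by decide +kernel)

theorem c130 : Inv 1561919 28 8 118503 57073 57016 :=
  loop_spec F_eq (by norm_num) _ _ _ _ _ _ 2000 _ _ _ _ _ _ c129
    (by norm_num) (by norm_num) (by norm_num) (by decide +kernel)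

theorem c131 : Inv 1573919 10 2 119336 57472 57415 :=
  loop_spec F_eq (by norm_num) _ _ _ _ _ _ 2000 _ _ _ _ _ _ c130
    (by norm_num) (by norm_num) (by norm_num) (by decide +kernel)

theorem c132 : Inv 1585919 18 4 120165 57863 57825 :=
  loop_spec F_eq (by norm_num) _ _ _ _ _ _ 2000 _ _ _ _ _ _ c131
    (by norm_num) (by norm_num) (by norm_num) (by decide +kernel)

theorem c133 : Inv 1597919 6 36 120991 58243 58240 :=
  loop_spec F_eq (by norm_num) _ _ _ _ _ _ 2000 _ _ _ _ _ _ c132
    (by norm_num) (by norm_num) (by norm_num) (by decide +kernel)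

theorem c134 : Inv 1609919 6 10 121841 58635 58662 :=
  loop_spec F_eq (by norm_num) _ _ _ _ _ _ 2000 _ _ _ _ _ _ c133
    (by norm_num) (by norm_num) (by norm_num) (by decide +kernel)

theorem c135 : Inv 1621919 10 32 122676 59043 59060 :=
  loop_spec F_eq (by norm_num) _ _ _ _ _ _ 2000 _ _ _ _ _ _ c134
    (by norm_num) (by norm_num) (by norm_num) (by decide +kernel)

theorem c136 : Inv 1633919 6 10 123530 59459 59473 :=
  loop_spec F_eq (by norm_num) _ _ _ _ _ _ 2000 _ _ _ _ _ _ c135
    (by norm_num) (by norm_num) (by norm_num) (by decide +kernel)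

theorem c137 : Inv 1645919 10 2 124352 59855 59864 :=
  loop_spec F_eq (by norm_num) _ _ _ _ _ _ 2000 _ _ _ _ _ _ c136
    (by norm_num) (by norm_num) (by norm_num) (by decide +kernel)

theorem c138 : Inv 1657919 22 8 125198 60260 60274 :=
  loop_spec F_eq (by norm_num) _ _ _ _ _ _ 2000 _ _ _ _ _ _ c137
    (by norm_num) (by norm_num) (by norm_num) (by decide +kernel)

theorem c139 : Inv 1669919 22 14 126043 60665 60685 :=
  loop_spec F_eq (by norm_num) _ _ _ _ _ _ 2000 _ _ _ _ _ _ c138
    (by norm_num) (by norm_num) (by norm_num) (by decide +kernel)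

theorem c140 : Inv 1681919 12 4 126888 61077 61089 :=
  loop_spec F_eq (by norm_num) _ _ _ _ _ _ 2000 _ _ _ _ _ _ c139
    (by norm_num) (by norm_num) (by norm_num) (by decide +kernel)

theorem c141 : Inv 1693919 28 2 127703 61474 61479 :=
  loop_spec F_eq (by norm_num) _ _ _ _ _ _ 2000 _ _ _ _ _ _ c140
    (by norm_num) (by norm_num) (by norm_num) (by decide +kernel)

theorem c142 : Inv 1705919 16 6 128550 61880 61892 :=
  loop_spec F_eq (by norm_num) _ _ _ _ _ _ 2000 _ _ _ _ _ _ c141
    (by norm_num) (by norm_num) (by norm_num) (by decide +kernel)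

theorem c143 : Inv 1717919 6 52 129373 62276 62295 :=
  loop_spec F_eq (by norm_num) _ _ _ _ _ _ 2000 _ _ _ _ _ _ c142
    (by norm_num) (by norm_num) (by norm_num) (by decide +kernel)

theorem c144 : Inv 1729919 10 8 130207 62677 62702 :=
  loop_spec F_eq (by norm_num) _ _ _ _ _ _ 2000 _ _ _ _ _ _ c143
    (by norm_num) (by norm_num) (by norm_num) (by decide +kernel)

theorem c145 : Inv 1741919 6 10 131034 63076 63114 :=
  loop_spec F_eq (by norm_num) _ _ _ _ _ _ 2000 _ _ _ _ _ _ c144
    (by norm_num) (by norm_num) (by norm_num) (by decide +kernel)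

theorem c146 : Inv 1753919 16 2 131892 63490 63534 :=
  loop_spec F_eq (by norm_num) _ _ _ _ _ _ 2000 _ _ _ _ _ _ c145
    (by norm_num) (by norm_num) (by norm_num) (by decide +kernel)

theorem c147 : Inv 1765919 6 12 132683 63867 63925 :=
  loop_spec F_eq (by norm_num) _ _ _ _ _ _ 2000 _ _ _ _ _ _ c146
    (by norm_num) (by norm_num) (by norm_num) (by decide +kernel)

theorem c148 : Inv 1777919 12 16 133517 64272 64324 :=
  loop_spec F_eq (by norm_num) _ _ _ _ _ _ 2000 _ _ _ _ _ _ c147
    (by norm_num) (by norm_num) (by norm_num) (by decide +kernel)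

theorem c149 : Inv 1789919 22 6 134350 64672 64730 :=
  loop_spec F_eq (by norm_num) _ _ _ _ _ _ 2000 _ _ _ _ _ _ c148
    (by norm_num) (by norm_num) (by norm_num) (by decide +kernel)

theorem c150 : Inv 1801919 6 6 135206 65083 65148 :=
  loop_spec F_eq (by norm_num) _ _ _ _ _ _ 2000 _ _ _ _ _ _ c149
    (by norm_num) (by norm_num) (by norm_num) (by decide +kernel)

theorem c151 : Inv 1813919 6 12 136037 65490 65545 :=
  loop_spec F_eq (by norm_num) _ _ _ _ _ _ 2000 _ _ _ _ _ _ c150
    (by norm_num) (by norm_num) (by norm_num) (by decide +kernel)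

theorem c152 : Inv 1825919 22 6 136876 65899 65953 :=
  loop_spec F_eq (by norm_num) _ _ _ _ _ _ 2000 _ _ _ _ _ _ c151
    (by norm_num) (by norm_num) (by norm_num) (by decide +kernel)

theorem c153 : Inv 1837919 16 24 137701 66293 66356 :=
  loop_spec F_eq (by norm_num) _ _ _ _ _ _ 2000 _ _ _ _ _ _ c152
    (by norm_num) (by norm_num) (by norm_num) (by decide +kernel)

theorem c154 : Inv 1849919 10 32 138537 66686 66768 :=
  loop_spec F_eq (by norm_num) _ _ _ _ _ _ 2000 _ _ _ _ _ _ c153
    (by norm_num) (by norm_num) (by norm_num) (by decide +kernel)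

end Pool.Agent.X29.Tug
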