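import Pool.Agent.X29.Tug.C1

set_option autoImplicit false

/-! Chunks 154, ..., 230 of the computation. -/

namespace Pool.Agent.X29.Tug

theorem c155 : Inv 1861919 6 16 139383 67098 67183 :=
  loop_spec F_eq (by norm_num) _ _ _ _ _ _ 2000 _ _ _ _ _ _ c154
    (by norm_num) (by norm_num) (by norm_num) (by decide +kernel)

theorem c156 : Inv 1873919 30 12 140220 67507 67590 :=
  loop_spec F_eq (by norm_num) _ _ _ _ _ _ 2000 _ _ _ _ _ _ c155
    (by norm_num) (by norm_num) (by norm_num) (by decide +kernel)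

theorem c157 : Inv 1885919 6 4 141056 67901 67986 :=
  loop_spec F_eq (by norm_num) _ _ _ _ _ _ 2000 _ _ _ _ _ _ c156
    (by norm_num) (by norm_num) (by norm_num) (by decide +kernel)

theorem c158 : Inv 1897919 48 28 141888 68316 68384 :=
  loop_spec F_eq (by norm_num) _ _ _ _ _ _ 2000 _ _ _ _ _ _ c157
    (by norm_num) (by norm_num) (by norm_num) (by decide +kernel)

theorem c159 : Inv 1909919 10 2 142710 68723 68770 :=
  loop_spec F_eq (by norm_num) _ _ _ _ _ _ 2000 _ _ _ _ _ _ c158
    (by norm_num) (by norm_num) (by norm_num) (by decide +kernel)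

theorem c160 : Inv 1921919 30 6 143552 69115 69188 :=
  loop_spec F_eq (by norm_num) _ _ _ _ _ _ 2000 _ _ _ _ _ _ c159
    (by norm_num) (by norm_num) (by norm_num) (by decide +kernel)

theorem c161 : Inv 1933919 6 22 144385 69524 69590 :=
  loop_spec F_eq (by norm_num) _ _ _ _ _ _ 2000 _ _ _ _ _ _ c160
    (by norm_num) (by norm_num) (by norm_num) (by decide +kernel)

theorem c162 : Inv 1945919 6 10 145228 69910 70010 :=
  loop_spec F_eq (by norm_num) _ _ _ _ _ _ 2000 _ _ _ _ _ _ c161
    (by norm_num) (by norm_num) (by norm_num) (by decide +kernel)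

theorem c163 : Inv 1957919 6 4 146047 70305 70403 :=
  loop_spec F_eq (by norm_num) _ _ _ _ _ _ 2000 _ _ _ _ _ _ c162
    (by norm_num) (by norm_num) (by norm_num) (by decide +kernel)

theorem c164 : Inv 1969919 12 18 146851 70697 70786 :=
  loop_spec F_eq (by norm_num) _ _ _ _ _ _ 2000 _ _ _ _ _ _ c163
    (by norm_num) (by norm_num) (by norm_num) (by decide +kernel)

theorem c165 : Inv 1981919 18 10 147666 71104 71170 :=
  loop_spec F_eq (by norm_num) _ _ _ _ _ _ 2000 _ _ _ _ _ _ c164
    (by norm_num) (by norm_num) (by norm_num) (by decide +kernel)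

theorem c166 : Inv 1993919 42 16 148497 71503 71570 :=
  loop_spec F_eq (by norm_num) _ _ _ _ _ _ 2000 _ _ _ _ _ _ c165
    (by norm_num) (by norm_num) (by norm_num) (by decide +kernel)

theorem c167 : Inv 2005919 16 24 149342 71906 71984 :=
  loop_spec F_eq (by norm_num) _ _ _ _ _ _ 2000 _ _ _ _ _ _ c166
    (by norm_num) (by norm_num) (by norm_num) (by decide +kernel)

theorem c168 : Inv 2017919 10 8 150188 72304 72401 :=
  loop_spec F_eq (by norm_num) _ _ _ _ _ _ 2000 _ _ _ _ _ _ c167
    (by norm_num) (by norm_num) (by norm_num) (by decide +kernel)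

theorem c169 : Inv 2029919 28 2 151014 72711 72802 :=
  loop_spec F_eq (by norm_num) _ _ _ _ _ _ 2000 _ _ _ _ _ _ c168
    (by norm_num) (by norm_num) (by norm_num) (by decide +kernel)

theorem c170 : Inv 2041919 28 24 151833 73097 73199 :=
  loop_spec F_eq (by norm_num) _ _ _ _ _ _ 2000 _ _ _ _ _ _ c169
    (by norm_num) (by norm_num) (by norm_num) (by decide +kernel)

theorem c171 : Inv 2053919 16 6 152648 73492 73592 :=
  loop_spec F_eq (by norm_num) _ _ _ _ _ _ 2000 _ _ _ _ _ _ c170
    (by norm_num) (by norm_num) (by norm_num) (by decide +kernel)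

theorem c172 : Inv 2065919 12 10 153486 73896 74005 :=
  loop_spec F_eq (by norm_num) _ _ _ _ _ _ 2000 _ _ _ _ _ _ c171
    (by norm_num) (by norm_num) (by norm_num) (by decide +kernel)

theorem c173 : Inv 2077919 6 4 154292 74291 74384 :=
  loop_spec F_eq (by norm_num) _ _ _ _ _ _ 2000 _ _ _ _ _ _ c172
    (by norm_num) (by norm_num) (by norm_num) (by decide +kernel)

theorem c174 : Inv 2089919 22 8 155126 74687 74792 :=
  loop_spec F_eq (by norm_num) _ _ _ _ _ _ 2000 _ _ _ _ _ _ c173
    (by norm_num) (by norm_num) (by norm_num) (by decide +kernel)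

theorem c175 : Inv 2101919 10 2 155946 75067 75206 :=
  loop_spec F_eq (by norm_num) _ _ _ _ _ _ 2000 _ _ _ _ _ _ c174
    (by norm_num) (by norm_num) (by norm_num) (by decide +kernel)

theorem c176 : Inv 2113919 6 12 156766 75465 75606 :=
  loop_spec F_eq (by norm_num) _ _ _ _ _ _ 2000 _ _ _ _ _ _ c175
    (by norm_num) (by norm_num) (by norm_num) (by decide +kernel)

theorem c177 : Inv 2125919 30 16 157585 75861 75993 :=
  loop_spec F_eq (by norm_num) _ _ _ _ _ _ 2000 _ _ _ _ _ _ c176
    (by norm_num) (by norm_num) (by norm_num) (by decide +kernel)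

theorem c178 : Inv 2137919 6 6 158418 76266 76401 :=
  loop_spec F_eq (by norm_num) _ _ _ _ _ _ 2000 _ _ _ _ _ _ c177
    (by norm_num) (by norm_num) (by norm_num) (by decide +kernel)

theorem c179 : Inv 2149919 10 12 159245 76679 76792 :=
  loop_spec F_eq (by norm_num) _ _ _ _ _ _ 2000 _ _ _ _ _ _ c178
    (by norm_num) (by norm_num) (by norm_num) (by decide +kernel)

theorem c180 : Inv 2161919 16 6 160085 77071 77214 :=
  loop_spec F_eq (by norm_num) _ _ _ _ _ _ 2000 _ _ _ _ _ _ c179
    (by norm_num) (by norm_num) (by norm_num) (by decide +kernel)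

theorem c181 : Inv 2173919 12 4 160903 77462 77619 :=
  loop_spec F_eq (by norm_num) _ _ _ _ _ _ 2000 _ _ _ _ _ _ c180
    (by norm_num) (by norm_num) (by norm_num) (by decide +kernel)

theorem c182 : Inv 2185919 6 6 161716 77871 77996 :=
  loop_spec F_eq (by norm_num) _ _ _ _ _ _ 2000 _ _ _ _ _ _ c181
    (by norm_num) (by norm_num) (by norm_num) (by decide +kernel)

theorem c183 : Inv 2197919 12 34 162539 78269 78387 :=
  loop_spec F_eq (by norm_num) _ _ _ _ _ _ 2000 _ _ _ _ _ _ c182
    (by norm_num) (by norm_num) (by norm_num) (by decide +kernel)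

theorem c184 : Inv 2209919 6 10 163354 78671 78780 :=
  loop_spec F_eq (by norm_num) _ _ _ _ _ _ 2000 _ _ _ _ _ _ c183
    (by norm_num) (by norm_num) (by norm_num) (by decide +kernel)

theorem c185 : Inv 2221919 10 2 164145 79051 79162 :=
  loop_spec F_eq (by norm_num) _ _ _ _ _ _ 2000 _ _ _ _ _ _ c184
    (by norm_num) (by norm_num) (by norm_num) (by decide +kernel)

theorem c186 : Inv 2233919 10 8 164982 79449 79574 :=
  loop_spec F_eq (by norm_num) _ _ _ _ _ _ 2000 _ _ _ _ _ _ c185
    (by norm_num) (by norm_num) (by norm_num) (by decide +kernel)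

theorem c187 : Inv 2245919 30 18 165801 79841 79976 :=
  loop_spec F_eq (by norm_num) _ _ _ _ _ _ 2000 _ _ _ _ _ _ c186
    (by norm_num) (by norm_num) (by norm_num) (by decide +kernel)

theorem c188 : Inv 2257919 10 26 166628 80232 80388 :=
  loop_spec F_eq (by norm_num) _ _ _ _ _ _ 2000 _ _ _ _ _ _ c187
    (by norm_num) (by norm_num) (by norm_num) (by decide +kernel)

theorem c189 : Inv 2269919 10 6 167465 80631 80801 :=
  loop_spec F_eq (by norm_num) _ _ _ _ _ _ 2000 _ _ _ _ _ _ c188
    (by norm_num) (by norm_num) (by norm_num) (by decide +kernel)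

theorem c190 : Inv 2281919 6 22 168291 81032 81196 :=
  loop_spec F_eq (by norm_num) _ _ _ _ _ _ 2000 _ _ _ _ _ _ c189
    (by norm_num) (by norm_num) (by norm_num) (by decide +kernel)

theorem c191 : Inv 2293919 18 10 169098 81420 81590 :=
  loop_spec F_eq (by norm_num) _ _ _ _ _ _ 2000 _ _ _ _ _ _ c190
    (by norm_num) (by norm_num) (by norm_num) (by decide +kernel)

theorem c192 : Inv 2305919 10 6 169910 81812 81990 :=
  loop_spec F_eq (by norm_num) _ _ _ _ _ _ 2000 _ _ _ _ _ _ c191
    (by norm_num) (by norm_num) (by norm_num) (by decide +kernel)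

theorem c193 : Inv 2317919 12 16 170715 82216 82371 :=
  loop_spec F_eq (by norm_num) _ _ _ _ _ _ 2000 _ _ _ _ _ _ c192
    (by norm_num) (by norm_num) (by norm_num) (by decide +kernel)

theorem c194 : Inv 2329919 28 8 171528 82620 82749 :=
  loop_spec F_eq (by norm_num) _ _ _ _ _ _ 2000 _ _ _ _ _ _ c193
    (by norm_num) (by norm_num) (by norm_num) (by decide +kernel)

theorem c195 : Inv 2341919 12 10 172339 83016 83135 :=
  loop_spec F_eq (by norm_num) _ _ _ _ _ _ 2000 _ _ _ _ _ _ c194
    (by norm_num) (by norm_num) (by norm_num) (by decide +kernel)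

theorem c196 : Inv 2353919 6 36 173138 83391 83529 :=
  loop_spec F_eq (by norm_num) _ _ _ _ _ _ 2000 _ _ _ _ _ _ c195
    (by norm_num) (by norm_num) (by norm_num) (by decide +kernel)

theorem c197 : Inv 2365919 18 22 173971 83792 83932 :=
  loop_spec F_eq (by norm_num) _ _ _ _ _ _ 2000 _ _ _ _ _ _ c196
    (by norm_num) (by norm_num) (by norm_num) (by decide +kernel)

theorem c198 : Inv 2377919 30 6 174777 84181 84331 :=
  loop_spec F_eq (by norm_num) _ _ _ _ _ _ 2000 _ _ _ _ _ _ c197
    (by norm_num) (by norm_num) (by norm_num) (by decide +kernel)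

theorem c199 : Inv 2389919 18 12 175612 84590 84727 :=
  loop_spec F_eq (by norm_num) _ _ _ _ _ _ 2000 _ _ _ _ _ _ c198
    (by norm_num) (by norm_num) (by norm_num) (by decide +kernel)

theorem c200 : Inv 2401919 22 6 176419 84980 85115 :=
  loop_spec F_eq (by norm_num) _ _ _ _ _ _ 2000 _ _ _ _ _ _ c199
    (by norm_num) (by norm_num) (by norm_num) (by decide +kernel)

theorem c201 : Inv 2413919 6 4 177229 85377 85502 :=
  loop_spec F_eq (by norm_num) _ _ _ _ _ _ 2000 _ _ _ _ _ _ c200
    (by norm_num) (by norm_num) (by norm_num) (by decide +kernel)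

theorem c202 : Inv 2425919 22 8 178048 85763 85899 :=
  loop_spec F_eq (by norm_num) _ _ _ _ _ _ 2000 _ _ _ _ _ _ c201
    (by norm_num) (by norm_num) (by norm_num) (by decide +kernel)

theorem c203 : Inv 2437919 28 18 178853 86145 86296 :=
  loop_spec F_eq (by norm_num) _ _ _ _ _ _ 2000 _ _ _ _ _ _ c202
    (by norm_num) (by norm_num) (by norm_num) (by decide +kernel)

theorem c204 : Inv 2449919 6 6 179675 86552 86683 :=
  loop_spec F_eq (by norm_num) _ _ _ _ _ _ 2000 _ _ _ _ _ _ c203
    (by norm_num) (by norm_num) (by norm_num) (by decide +kernel)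

theorem c205 : Inv 2461919 6 22 180504 86935 87087 :=
  loop_spec F_eq (by norm_num) _ _ _ _ _ _ 2000 _ _ _ _ _ _ c204
    (by norm_num) (by norm_num) (by norm_num) (by decide +kernel)

theorem c206 : Inv 2473919 12 28 181303 87316 87474 :=
  loop_spec F_eq (by norm_num) _ _ _ _ _ _ 2000 _ _ _ _ _ _ c205
    (by norm_num) (by norm_num) (by norm_num) (by decide +kernel)

theorem c207 : Inv 2485919 12 10 182107 87701 87872 :=
  loop_spec F_eq (by norm_num) _ _ _ _ _ _ 2000 _ _ _ _ _ _ c206
    (by norm_num) (by norm_num) (by norm_num) (by decide +kernel)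

theorem c208 : Inv 2497919 16 6 182928 88088 88286 :=
  loop_spec F_eq (by norm_num) _ _ _ _ _ _ 2000 _ _ _ _ _ _ c207
    (by norm_num) (by norm_num) (by norm_num) (by decide +kernel)

theorem c209 : Inv 2509919 12 16 183741 88459 88695 :=
  loop_spec F_eq (by norm_num) _ _ _ _ _ _ 2000 _ _ _ _ _ _ c208
    (by norm_num) (by norm_num) (by norm_num) (by decide +kernel)

theorem c210 : Inv 2521919 18 54 184545 88847 89078 :=
  loop_spec F_eq (by norm_num) _ _ _ _ _ _ 2000 _ _ _ _ _ _ c209
    (by norm_num) (by norm_num) (by norm_num) (by decide +kernel)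

theorem c211 : Inv 2533919 6 76 185383 89249 89486 :=
  loop_spec F_eq (by norm_num) _ _ _ _ _ _ 2000 _ _ _ _ _ _ c210
    (by norm_num) (by norm_num) (by norm_num) (by decide +kernel)

theorem c212 : Inv 2545919 28 2 186188 89633 89874 :=
  loop_spec F_eq (by norm_num) _ _ _ _ _ _ 2000 _ _ _ _ _ _ c211
    (by norm_num) (by norm_num) (by norm_num) (by decide +kernel)

theorem c213 : Inv 2557919 10 8 186992 90036 90251 :=
  loop_spec F_eq (by norm_num) _ _ _ _ _ _ 2000 _ _ _ _ _ _ c212
    (by norm_num) (by norm_num) (by norm_num) (by decide +kernel)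

theorem c214 : Inv 2569919 28 50 187804 90415 90654 :=
  loop_spec F_eq (by norm_num) _ _ _ _ _ _ 2000 _ _ _ _ _ _ c213
    (by norm_num) (by norm_num) (by norm_num) (by decide +kernel)

theorem c215 : Inv 2581919 6 6 188650 90817 91074 :=
  loop_spec F_eq (by norm_num) _ _ _ _ _ _ 2000 _ _ _ _ _ _ c214
    (by norm_num) (by norm_num) (by norm_num) (by decide +kernel)

theorem c216 : Inv 2593919 12 10 189456 91219 91456 :=
  loop_spec F_eq (by norm_num) _ _ _ _ _ _ 2000 _ _ _ _ _ _ c215
    (by norm_num) (by norm_num) (by norm_num) (by decide +kernel)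

theorem c217 : Inv 2605919 10 38 190264 91605 91853 :=
  loop_spec F_eq (by norm_num) _ _ _ _ _ _ 2000 _ _ _ _ _ _ c216
    (by norm_num) (by norm_num) (by norm_num) (by decide +kernel)

theorem c218 : Inv 2617919 12 10 191086 91993 92256 :=
  loop_spec F_eq (by norm_num) _ _ _ _ _ _ 2000 _ _ _ _ _ _ c217
    (by norm_num) (by norm_num) (by norm_num) (by decide +kernel)

theorem c219 : Inv 2629919 10 6 191879 92365 92656 :=
  loop_spec F_eq (by norm_num) _ _ _ _ _ _ 2000 _ _ _ _ _ _ c218
    (by norm_num) (by norm_num) (by norm_num) (by decide +kernel)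

theorem c220 : Inv 2641919 10 2 192703 92765 93055 :=
  loop_spec F_eq (by norm_num) _ _ _ _ _ _ 2000 _ _ _ _ _ _ c219
    (by norm_num) (by norm_num) (by norm_num) (by decide +kernel)

theorem c221 : Inv 2653919 6 6 193520 93161 93453 :=
  loop_spec F_eq (by norm_num) _ _ _ _ _ _ 2000 _ _ _ _ _ _ c220
    (by norm_num) (by norm_num) (by norm_num) (by decide +kernel)

theorem c222 : Inv 2665919 6 22 194353 93567 93850 :=
  loop_spec F_eq (by norm_num) _ _ _ _ _ _ 2000 _ _ _ _ _ _ c221
    (by norm_num) (by norm_num) (by norm_num) (by decide +kernel)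

theorem c223 : Inv 2677919 16 2 195133 93958 94220 :=
  loop_spec F_eq (by norm_num) _ _ _ _ _ _ 2000 _ _ _ _ _ _ c222
    (by norm_num) (by norm_num) (by norm_num) (by decide +kernel)

theorem c224 : Inv 2689919 16 12 195952 94366 94610 :=
  loop_spec F_eq (by norm_num) _ _ _ _ _ _ 2000 _ _ _ _ _ _ c223
    (by norm_num) (by norm_num) (by norm_num) (by decide +kernel)

theorem c225 : Inv 2701919 6 10 196772 94767 95002 :=
  loop_spec F_eq (by norm_num) _ _ _ _ _ _ 2000 _ _ _ _ _ _ c224
    (by norm_num) (by norm_num) (by norm_num) (by decide +kernel)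

theorem c226 : Inv 2713919 36 10 197585 95166 95397 :=
  loop_spec F_eq (by norm_num) _ _ _ _ _ _ 2000 _ _ _ _ _ _ c225
    (by norm_num) (by norm_num) (by norm_num) (by decide +kernel)

theorem c227 : Inv 2725919 22 26 198395 95562 95781 :=
  loop_spec F_eq (by norm_num) _ _ _ _ _ _ 2000 _ _ _ _ _ _ c226
    (by norm_num) (by norm_num) (by norm_num) (by decide +kernel)

theorem c228 : Inv 2737919 46 2 199171 95943 96150 :=
  loop_spec F_eq (by norm_num) _ _ _ _ _ _ 2000 _ _ _ _ _ _ c227
    (by norm_num) (by norm_num) (by norm_num) (by decide +kernel)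

theorem c229 : Inv 2749919 6 6 199989 96332 96556 :=
  loop_spec F_eq (by norm_num) _ _ _ _ _ _ 2000 _ _ _ _ _ _ c228
    (by norm_num) (by norm_num) (by norm_num) (by decide +kernel)

theorem c230 : Inv 2761919 12 4 200800 96713 96959 :=
  loop_spec F_eq (by norm_num) _ _ _ _ _ _ 2000 _ _ _ _ _ _ c229
    (by norm_num) (by norm_num) (by norm_num) (by decide +kernel)

theorem c231 : Inv 2773919 28 20 201609 97095 97347 :=
  loop_spec F_eq (by norm_num) _ _ _ _ _ _ 2000 _ _ _ _ _ _ c230
    (by norm_num) (by norm_num) (by norm_num) (by decide +kernel)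

end Pool.Agent.X29.Tug
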