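import Pool.Agent.X29.Tug.C2

set_option autoImplicit false

/-! Chunks 231, ..., 305 of the computation. -/

namespace Pool.Agent.X29.Tug

theorem c232 : Inv 2785919 12 4 202420 97492 97731 :=
  loop_spec F_eq (by norm_num) _ _ _ _ _ _ 2000 _ _ _ _ _ _ c231
    (by norm_num) (by norm_num) (by norm_num) (by decide +kernel)

theorem c233 : Inv 2797919 6 12 203203 97883 98087 :=
  loop_spec F_eq (by norm_num) _ _ _ _ _ _ 2000 _ _ _ _ _ _ c232
    (by norm_num) (by norm_num) (by norm_num) (by decide +kernel)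

theorem c234 : Inv 2809919 16 14 204048 98279 98509 :=
  loop_spec F_eq (by norm_num) _ _ _ _ _ _ 2000 _ _ _ _ _ _ c233
    (by norm_num) (by norm_num) (by norm_num) (by decide +kernel)

theorem c235 : Inv 2821919 6 4 204880 98686 98903 :=
  loop_spec F_eq (by norm_num) _ _ _ _ _ _ 2000 _ _ _ _ _ _ c234
    (by norm_num) (by norm_num) (by norm_num) (by decide +kernel)

theorem c236 : Inv 2833919 16 14 205693 99067 99297 :=
  loop_spec F_eq (by norm_num) _ _ _ _ _ _ 2000 _ _ _ _ _ _ c235
    (by norm_num) (by norm_num) (by norm_num) (by decide +kernel)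

theorem c237 : Inv 2845919 12 4 206504 99459 99688 :=
  loop_spec F_eq (by norm_num) _ _ _ _ _ _ 2000 _ _ _ _ _ _ c236
    (by norm_num) (by norm_num) (by norm_num) (by decide +kernel)

theorem c238 : Inv 2857919 6 10 207313 99838 100091 :=
  loop_spec F_eq (by norm_num) _ _ _ _ _ _ 2000 _ _ _ _ _ _ c237
    (by norm_num) (by norm_num) (by norm_num) (by decide +kernel)

theorem c239 : Inv 2869919 18 18 208110 100228 100478 :=
  loop_spec F_eq (by norm_num) _ _ _ _ _ _ 2000 _ _ _ _ _ _ c238
    (by norm_num) (by norm_num) (by norm_num) (by decide +kernel)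

theorem c240 : Inv 2881919 22 8 208900 100603 100861 :=
  loop_spec F_eq (by norm_num) _ _ _ _ _ _ 2000 _ _ _ _ _ _ c239
    (by norm_num) (by norm_num) (by norm_num) (by decide +kernel)

theorem c241 : Inv 2893919 22 18 209705 101005 101238 :=
  loop_spec F_eq (by norm_num) _ _ _ _ _ _ 2000 _ _ _ _ _ _ c240
    (by norm_num) (by norm_num) (by norm_num) (by decide +kernel)

theorem c242 : Inv 2905919 18 10 210508 101388 101637 :=
  loop_spec F_eq (by norm_num) _ _ _ _ _ _ 2000 _ _ _ _ _ _ c241
    (by norm_num) (by norm_num) (by norm_num) (by decide +kernel)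

theorem c243 : Inv 2917919 6 4 211305 101773 102023 :=
  loop_spec F_eq (by norm_num) _ _ _ _ _ _ 2000 _ _ _ _ _ _ c242
    (by norm_num) (by norm_num) (by norm_num) (by decide +kernel)

theorem c244 : Inv 2929919 40 12 212114 102173 102405 :=
  loop_spec F_eq (by norm_num) _ _ _ _ _ _ 2000 _ _ _ _ _ _ c243
    (by norm_num) (by norm_num) (by norm_num) (by decide +kernel)

theorem c245 : Inv 2941919 28 2 212922 102556 102801 :=
  loop_spec F_eq (by norm_num) _ _ _ _ _ _ 2000 _ _ _ _ _ _ c244
    (by norm_num) (by norm_num) (by norm_num) (by decide +kernel)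

theorem c246 : Inv 2953919 28 8 213715 102949 103180 :=
  loop_spec F_eq (by norm_num) _ _ _ _ _ _ 2000 _ _ _ _ _ _ c245
    (by norm_num) (by norm_num) (by norm_num) (by decide +kernel)

theorem c247 : Inv 2965919 10 6 214524 103339 103574 :=
  loop_spec F_eq (by norm_num) _ _ _ _ _ _ 2000 _ _ _ _ _ _ c246
    (by norm_num) (by norm_num) (by norm_num) (by decide +kernel)

theorem c248 : Inv 2977919 6 10 215317 103720 103956 :=
  loop_spec F_eq (by norm_num) _ _ _ _ _ _ 2000 _ _ _ _ _ _ c247
    (by norm_num) (by norm_num) (by norm_num) (by decide +kernel)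

theorem c249 : Inv 2989919 40 30 216124 104120 104346 :=
  loop_spec F_eq (by norm_num) _ _ _ _ _ _ 2000 _ _ _ _ _ _ c248
    (by norm_num) (by norm_num) (by norm_num) (by decide +kernel)

theorem c250 : Inv 3001919 10 2 216939 104519 104741 :=
  loop_spec F_eq (by norm_num) _ _ _ _ _ _ 2000 _ _ _ _ _ _ c249
    (by norm_num) (by norm_num) (by norm_num) (by decide +kernel)

theorem c251 : Inv 3013919 30 16 217753 104914 105132 :=
  loop_spec F_eq (by norm_num) _ _ _ _ _ _ 2000 _ _ _ _ _ _ c250
    (by norm_num) (by norm_num) (by norm_num) (by decide +kernel)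

theorem c252 : Inv 3025919 10 38 218535 105284 105520 :=
  loop_spec F_eq (by norm_num) _ _ _ _ _ _ 2000 _ _ _ _ _ _ c251
    (by norm_num) (by norm_num) (by norm_num) (by decide +kernel)

theorem c253 : Inv 3037919 18 12 219330 105690 105886 :=
  loop_spec F_eq (by norm_num) _ _ _ _ _ _ 2000 _ _ _ _ _ _ c252
    (by norm_num) (by norm_num) (by norm_num) (by decide +kernel)

theorem c254 : Inv 3049919 10 6 220127 106079 106271 :=
  loop_spec F_eq (by norm_num) _ _ _ _ _ _ 2000 _ _ _ _ _ _ c253
    (by norm_num) (by norm_num) (by norm_num) (by decide +kernel)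

theorem c255 : Inv 3061919 6 16 220927 106471 106653 :=
  loop_spec F_eq (by norm_num) _ _ _ _ _ _ 2000 _ _ _ _ _ _ c254
    (by norm_num) (by norm_num) (by norm_num) (by decide +kernel)

theorem c256 : Inv 3073919 18 10 221722 106865 107032 :=
  loop_spec F_eq (by norm_num) _ _ _ _ _ _ 2000 _ _ _ _ _ _ c255
    (by norm_num) (by norm_num) (by norm_num) (by decide +kernel)

theorem c257 : Inv 3085919 16 60 222547 107254 107442 :=
  loop_spec F_eq (by norm_num) _ _ _ _ _ _ 2000 _ _ _ _ _ _ c256
    (by norm_num) (by norm_num) (by norm_num) (by decide +kernel)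

theorem c258 : Inv 3097919 10 2 223363 107639 107840 :=
  loop_spec F_eq (by norm_num) _ _ _ _ _ _ 2000 _ _ _ _ _ _ c257
    (by norm_num) (by norm_num) (by norm_num) (by decide +kernel)

theorem c259 : Inv 3109919 6 46 224162 108036 108223 :=
  loop_spec F_eq (by norm_num) _ _ _ _ _ _ 2000 _ _ _ _ _ _ c258
    (by norm_num) (by norm_num) (by norm_num) (by decide +kernel)

theorem c260 : Inv 3121919 6 12 224974 108435 108612 :=
  loop_spec F_eq (by norm_num) _ _ _ _ _ _ 2000 _ _ _ _ _ _ c259
    (by norm_num) (by norm_num) (by norm_num) (by decide +kernel)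

theorem c261 : Inv 3133919 10 8 225773 108811 109008 :=
  loop_spec F_eq (by norm_num) _ _ _ _ _ _ 2000 _ _ _ _ _ _ c260
    (by norm_num) (by norm_num) (by norm_num) (by decide +kernel)

theorem c262 : Inv 3145919 6 10 226561 109196 109389 :=
  loop_spec F_eq (by norm_num) _ _ _ _ _ _ 2000 _ _ _ _ _ _ c261
    (by norm_num) (by norm_num) (by norm_num) (by decide +kernel)

theorem c263 : Inv 3157919 40 6 227384 109598 109780 :=
  loop_spec F_eq (by norm_num) _ _ _ _ _ _ 2000 _ _ _ _ _ _ c262
    (by norm_num) (by norm_num) (by norm_num) (by decide +kernel)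

theorem c264 : Inv 3169919 10 20 228172 109978 110160 :=
  loop_spec F_eq (by norm_num) _ _ _ _ _ _ 2000 _ _ _ _ _ _ c263
    (by norm_num) (by norm_num) (by norm_num) (by decide +kernel)

theorem c265 : Inv 3181919 18 22 228971 110376 110544 :=
  loop_spec F_eq (by norm_num) _ _ _ _ _ _ 2000 _ _ _ _ _ _ c264
    (by norm_num) (by norm_num) (by norm_num) (by decide +kernel)

theorem c266 : Inv 3193919 6 10 229796 110775 110937 :=
  loop_spec F_eq (by norm_num) _ _ _ _ _ _ 2000 _ _ _ _ _ _ c265
    (by norm_num) (by norm_num) (by norm_num) (by decide +kernel)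

theorem c267 : Inv 3205919 12 4 230610 111170 111332 :=
  loop_spec F_eq (by norm_num) _ _ _ _ _ _ 2000 _ _ _ _ _ _ c266
    (by norm_num) (by norm_num) (by norm_num) (by decide +kernel)

theorem c268 : Inv 3217919 28 18 231435 111573 111731 :=
  loop_spec F_eq (by norm_num) _ _ _ _ _ _ 2000 _ _ _ _ _ _ c267
    (by norm_num) (by norm_num) (by norm_num) (by decide +kernel)

theorem c269 : Inv 3229919 10 8 232234 111956 112128 :=
  loop_spec F_eq (by norm_num) _ _ _ _ _ _ 2000 _ _ _ _ _ _ c268
    (by norm_num) (by norm_num) (by norm_num) (by decide +kernel)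

theorem c270 : Inv 3241919 40 2 233044 112336 112528 :=
  loop_spec F_eq (by norm_num) _ _ _ _ _ _ 2000 _ _ _ _ _ _ c269
    (by norm_num) (by norm_num) (by norm_num) (by decide +kernel)

theorem c271 : Inv 3253919 30 18 233830 112716 112912 :=
  loop_spec F_eq (by norm_num) _ _ _ _ _ _ 2000 _ _ _ _ _ _ c270
    (by norm_num) (by norm_num) (by norm_num) (by decide +kernel)

theorem c272 : Inv 3265919 12 4 234643 113109 113300 :=
  loop_spec F_eq (by norm_num) _ _ _ _ _ _ 2000 _ _ _ _ _ _ c271
    (by norm_num) (by norm_num) (by norm_num) (by decide +kernel)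

theorem c273 : Inv 3277919 6 10 235451 113497 113695 :=
  loop_spec F_eq (by norm_num) _ _ _ _ _ _ 2000 _ _ _ _ _ _ c272
    (by norm_num) (by norm_num) (by norm_num) (by decide +kernel)

theorem c274 : Inv 3289919 30 10 236243 113889 114075 :=
  loop_spec F_eq (by norm_num) _ _ _ _ _ _ 2000 _ _ _ _ _ _ c273
    (by norm_num) (by norm_num) (by norm_num) (by decide +kernel)

theorem c275 : Inv 3301919 18 40 237017 114271 114438 :=
  loop_spec F_eq (by norm_num) _ _ _ _ _ _ 2000 _ _ _ _ _ _ c274
    (by norm_num) (by norm_num) (by norm_num) (by decide +kernel)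

theorem c276 : Inv 3313919 6 10 237836 114670 114836 :=
  loop_spec F_eq (by norm_num) _ _ _ _ _ _ 2000 _ _ _ _ _ _ c275
    (by norm_num) (by norm_num) (by norm_num) (by decide +kernel)

theorem c277 : Inv 3325919 6 12 238633 115045 115228 :=
  loop_spec F_eq (by norm_num) _ _ _ _ _ _ 2000 _ _ _ _ _ _ c276
    (by norm_num) (by norm_num) (by norm_num) (by decide +kernel)

theorem c278 : Inv 3337919 10 6 239413 115430 115609 :=
  loop_spec F_eq (by norm_num) _ _ _ _ _ _ 2000 _ _ _ _ _ _ c277
    (by norm_num) (by norm_num) (by norm_num) (by decide +kernel)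

theorem c279 : Inv 3349919 16 30 240225 115833 115983 :=
  loop_spec F_eq (by norm_num) _ _ _ _ _ _ 2000 _ _ _ _ _ _ c278
    (by norm_num) (by norm_num) (by norm_num) (by decide +kernel)

theorem c280 : Inv 3361919 6 6 240987 116203 116351 :=
  loop_spec F_eq (by norm_num) _ _ _ _ _ _ 2000 _ _ _ _ _ _ c279
    (by norm_num) (by norm_num) (by norm_num) (by decide +kernel)

theorem c281 : Inv 3373919 12 10 241793 116594 116740 :=
  loop_spec F_eq (by norm_num) _ _ _ _ _ _ 2000 _ _ _ _ _ _ c280
    (by norm_num) (by norm_num) (by norm_num) (by decide +kernel)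

theorem c282 : Inv 3385919 22 6 242598 116973 117145 :=
  loop_spec F_eq (by norm_num) _ _ _ _ _ _ 2000 _ _ _ _ _ _ c281
    (by norm_num) (by norm_num) (by norm_num) (by decide +kernel)

theorem c283 : Inv 3397919 12 10 243410 117367 117539 :=
  loop_spec F_eq (by norm_num) _ _ _ _ _ _ 2000 _ _ _ _ _ _ c282
    (by norm_num) (by norm_num) (by norm_num) (by decide +kernel)

theorem c284 : Inv 3409919 28 38 244211 117752 117936 :=
  loop_spec F_eq (by norm_num) _ _ _ _ _ _ 2000 _ _ _ _ _ _ c283
    (by norm_num) (by norm_num) (by norm_num) (by decide +kernel)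

theorem c285 : Inv 3421919 12 4 245010 118133 118322 :=
  loop_spec F_eq (by norm_num) _ _ _ _ _ _ 2000 _ _ _ _ _ _ c284
    (by norm_num) (by norm_num) (by norm_num) (by decide +kernel)

theorem c286 : Inv 3433919 10 26 245817 118533 118701 :=
  loop_spec F_eq (by norm_num) _ _ _ _ _ _ 2000 _ _ _ _ _ _ c285
    (by norm_num) (by norm_num) (by norm_num) (by decide +kernel)

theorem c287 : Inv 3445919 6 4 246646 118942 119093 :=
  loop_spec F_eq (by norm_num) _ _ _ _ _ _ 2000 _ _ _ _ _ _ c286
    (by norm_num) (by norm_num) (by norm_num) (by decide +kernel)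

theorem c288 : Inv 3457919 22 26 247424 119325 119463 :=
  loop_spec F_eq (by norm_num) _ _ _ _ _ _ 2000 _ _ _ _ _ _ c287
    (by norm_num) (by norm_num) (by norm_num) (by decide +kernel)

theorem c289 : Inv 3469919 18 24 248202 119701 119846 :=
  loop_spec F_eq (by norm_num) _ _ _ _ _ _ 2000 _ _ _ _ _ _ c288
    (by norm_num) (by norm_num) (by norm_num) (by decide +kernel)

theorem c290 : Inv 3481919 40 20 248971 120073 120221 :=
  loop_spec F_eq (by norm_num) _ _ _ _ _ _ 2000 _ _ _ _ _ _ c289
    (by norm_num) (by norm_num) (by norm_num) (by decide +kernel)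

theorem c291 : Inv 3493919 10 26 249748 120461 120589 :=
  loop_spec F_eq (by norm_num) _ _ _ _ _ _ 2000 _ _ _ _ _ _ c290
    (by norm_num) (by norm_num) (by norm_num) (by decide +kernel)

theorem c292 : Inv 3505919 30 40 250540 120845 120971 :=
  loop_spec F_eq (by norm_num) _ _ _ _ _ _ 2000 _ _ _ _ _ _ c291
    (by norm_num) (by norm_num) (by norm_num) (by decide +kernel)

theorem c293 : Inv 3517919 10 8 251319 121217 121358 :=
  loop_spec F_eq (by norm_num) _ _ _ _ _ _ 2000 _ _ _ _ _ _ c292
    (by norm_num) (by norm_num) (by norm_num) (by decide +kernel)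

theorem c294 : Inv 3529919 46 12 252082 121589 121728 :=
  loop_spec F_eq (by norm_num) _ _ _ _ _ _ 2000 _ _ _ _ _ _ c293
    (by norm_num) (by norm_num) (by norm_num) (by decide +kernel)

theorem c295 : Inv 3541919 12 24 252878 121978 122104 :=
  loop_spec F_eq (by norm_num) _ _ _ _ _ _ 2000 _ _ _ _ _ _ c294
    (by norm_num) (by norm_num) (by norm_num) (by decide +kernel)

theorem c296 : Inv 3553919 16 26 253663 122359 122484 :=
  loop_spec F_eq (by norm_num) _ _ _ _ _ _ 2000 _ _ _ _ _ _ c295
    (by norm_num) (by norm_num) (by norm_num) (by decide +kernel)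

theorem c297 : Inv 3565919 10 2 254475 122765 122864 :=
  loop_spec F_eq (by norm_num) _ _ _ _ _ _ 2000 _ _ _ _ _ _ c296
    (by norm_num) (by norm_num) (by norm_num) (by decide +kernel)

theorem c298 : Inv 3577919 6 6 255258 123147 123243 :=
  loop_spec F_eq (by norm_num) _ _ _ _ _ _ 2000 _ _ _ _ _ _ c297
    (by norm_num) (by norm_num) (by norm_num) (by decide +kernel)

theorem c299 : Inv 3589919 6 10 256053 123544 123614 :=
  loop_spec F_eq (by norm_num) _ _ _ _ _ _ 2000 _ _ _ _ _ _ c298
    (by norm_num) (by norm_num) (by norm_num) (by decide +kernel)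

theorem c300 : Inv 3601919 16 14 256859 123958 123978 :=
  loop_spec F_eq (by norm_num) _ _ _ _ _ _ 2000 _ _ _ _ _ _ c299
    (by norm_num) (by norm_num) (by norm_num) (by decide +kernel)

theorem c301 : Inv 3613919 30 10 257686 124356 124378 :=
  loop_spec F_eq (by norm_num) _ _ _ _ _ _ 2000 _ _ _ _ _ _ c300
    (by norm_num) (by norm_num) (by norm_num) (by decide +kernel)

theorem c302 : Inv 3625919 36 10 258494 124756 124763 :=
  loop_spec F_eq (by norm_num) _ _ _ _ _ _ 2000 _ _ _ _ _ _ c301
    (by norm_num) (by norm_num) (by norm_num) (by decide +kernel)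

theorem c303 : Inv 3637919 6 10 259282 125130 125140 :=
  loop_spec F_eq (by norm_num) _ _ _ _ _ _ 2000 _ _ _ _ _ _ c302
    (by norm_num) (by norm_num) (by norm_num) (by decide +kernel)

theorem c304 : Inv 3649919 6 6 260057 125499 125530 :=
  loop_spec F_eq (by norm_num) _ _ _ _ _ _ 2000 _ _ _ _ _ _ c303
    (by norm_num) (by norm_num) (by norm_num) (by decide +kernel)

theorem c305 : Inv 3661919 6 4 260830 125885 125893 :=
  loop_spec F_eq (by norm_num) _ _ _ _ _ _ 2000 _ _ _ _ _ _ c304
    (by norm_num) (by norm_num) (by norm_num) (by decide +kernel)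

theorem c306 : Inv 3666581 42 10 261149 126043 126043 :=
  loop_spec F_eq (by norm_num) _ _ _ _ _ _ 777 _ _ _ _ _ _ c305
    (by norm_num) (by norm_num) (by norm_num) (by decide +kernel)

end Pool.Agent.X29.Tug
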