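import Mathlib

set_option autoImplicit false

/-!
# The running score of the signs of the second differences of the primes: a verified computation

`loop` runs through the integers `q ≡ 5 (mod 6)` and tests `q` and `q + 2` for primality by
`gcd (q, B!) = 1` (valid for `B < q < (B + 1) ^ 2`). The state consists of `q`, the distance
`d` to the last prime before `q`, the gap `pg` before that prime, its index `n` and the numbers
`u`, `v` of the upward and downward steps so far.
-/

namespace Pool.Agent.X29.Tug

open Finset

/-- `1914!` -/
def F : ℕ := 27371717716862839102559645025995224708745860860324146715228244159216556947100576154344685592783474640247915291732177571932177445787766273802476627782967634563683342904770733093541832911816363113222651873175844481560374649700379836367175582318902694724208630300425173676056751356477445065704607927297357596257374802341909218709306833668330853993019141425953389650027947718003420501470060246954360361750157108272912965802260267163969531067237186753517350365377043776772685135493422371722876600764998932208015855418022477960702752491452589866858327971855580153079617748917241287379686583536888907591213075891139596043941725490720318328073344859048093173153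95418544688733732560730332697222429457258749410683702674076523847816651281799778881685023905038351951013098875069985131586252305935783186703917352185369608742268029605914219373097732569466538208439669597933466989888058740463693024596614124568287821708044590769959776048067330544217259805195049416156450639600519376850346852831309358913805308958989016102586256906316026678386167333098425130475091898002828976000639024006152896258080576491830584245858438179170933474456849226696460956557489529532182409057390002534852687991491418454731141618215067559414928415155733758872196748059056018546049542682910886767377664892683925342327900839289622985777392312671350833048802081593785856525215477029353408111581943999584154317450410037874616945419775617950557151557971358689768667875728914172519609295271330382377421784720546457465743291305180219895066529486312202160489228818187189944078397158522738834345311139119771745387931362822855598491307672507916048561514923058707940606886219982656353061512870370884775655114984409415571189935050149320852771025870041911398620942275323091210810039163381314914830536512935202169463241765994076857342363623645252841762440473573527264564940067555368463972911382772374493951704041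38412190991868928042645923164464010444327279052801645119934584653595668908514677825463064505092317539741209128632866685188017251973085845923443553172760924994508035201895842193737416079585850035943129880612644138818708960993064017999497780018155754734818658880205464123873560847373555455400376607462557393368947932984582595737910264806917803030911324945452366675788029604024591091600529479207577970976838487605196992564490854227007988402669020848498898367316099075481342941867174025539428278678425140912525023077151322665298669007111057269655266983972528518677952869100373994469928981709432415973865420176399838049482054971295465920122817828721214789222375407918451667931158655579093269576685660389953662744410620243413210375638779399570400953896575343542476938254531475604148399774921482189010389336213902866290466788210520786788556706132153042307686922563035789219725145195412825101006074761169754533016940031320954149878806619848829737511982962622638553889900424147687509381767138254382579017008499848408275074677069813757579978168506361097852460078235742009491416405187564137170244177017058413382794567523956009714837216819100701526669350591001349349556560616615573190814980317830156253534538873704669292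58766532556237046219175964271474913720887215327435672968261550345061362686817741559887013681007264386063293164056027287747871838573781149004410306464786083320829451210422545126069202925739514762650136505922124592478314639640563623663692547152829591389903408549595586610345276673723567314520832789974479502408161451026144552765084157126666404447610920195974723677608210552799454671592319659624771727072708489189067941756200495571434914243658306735820465475315927613676543149677227320223011870672281952674433576350144159849660965030184390400341451744093407582337541806460225240978783460019444747250184043803124679840483746944876908677690444783915355347064139083952417954746601237374317848494767421545985185631892352498280583819301269019256722978251642156070364766977907202896691440872961667258229229278390666904100098992584574999133796448238251871386090508072167691409238099579571743636138955622022405831248993543289989994882587831530104204808774604050129260067658067282744075433803835949922447759887542292133456988286542337251534852218837369278965035007114060709964826852740400593702815834310351025485972829317796555289253633656861080096927381712548913530760928521976737662116571075440958272469907456456329081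116478653734907565986838293496879780592004791520546016836102586216452060927764246300503080509121090802930316769896189125193593618971278965734337073674130352869436985962797893484500725080438987715211183888162812872913013816960351914823492555508906092347429856719427431368504917224199043412722110948708239736092247436737184911511920335487133176027848580673170354635344595275072365124079515840211560467033342164487276322306203173594188760298739225028529094390306908217442564654966542699681788766045584094653762303488089422047185731889600512298612468127098506706314620375372174606454778186187358217229872445276609024163803002550986744312304635710567561364982585169330980600424357511876910443339990224076800000000000000000000000000000000000000000000000000000000000000000000000000000000000000000000000000000000000000000000000000000000000000000000000000000000000000000000000000000000000000000000000000000000000000000000000000000000000000000000000000000000000000000000000000000000000000000000000000000000000000000000000000000000000000000000000000000000000000000000000000000000000000000000000000000000000000000000000000000000000000000000000000000000000000000000000000000000000000000000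

/-- the prime with index `i`, `p 0 = 2` -/
noncomputable def p (i : ℕ) : ℕ := Nat.nth Nat.Prime i

/-- the `n`-th prime gap `p n - p (n - 1)`, `n ≥ 1` -/
noncomputable def g (n : ℕ) : ℤ := (p n : ℤ) - (p (n - 1) : ℤ)

/-- the score: the sum of the signs of `g k - g (k - 1)`, `2 ≤ k ≤ n` -/
noncomputable def a (n : ℕ) : ℤ := ∑ k ∈ Finset.Icc 2 n, Int.sign (g k - g (k - 1))

theorem F_eq : F = Nat.factorial 1914 := by
  have h : Nat.beq F (Nat.factorial 1914) = true := by decide +kernel
  exact Nat.eq_of_beq_eq_true h

theorem test_iff {q G B : ℕ} (hG : G = Nat.factorial B) (h1 : B < q)
    (h2 : q < (B + 1) * (B + 1)) (hB : 1 ≤ B) :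
    Nat.beq (Nat.gcd q G) 1 = true ↔ q.Prime := by
  rw [Nat.beq_eq, hG]
  constructor
  · intro h
    by_contra hq
    have h3 : q.minFac ^ 2 ≤ q := Nat.minFac_sq_le_self (by omega) hq
    have h4 : q.minFac < B + 1 := by
      by_contra h5
      push Not at h5
      nlinarith
    have hp : q.minFac.Prime := Nat.minFac_prime (by omega)
    have h5 : q.minFac ∣ Nat.factorial B := (Nat.Prime.dvd_factorial hp).mpr (by omega)
    have h6 : q.minFac ∣ Nat.gcd q (Nat.factorial B) := Nat.dvd_gcd (Nat.minFac_dvd q) h5
    rw [h] at h6
    exact hp.one_lt.ne' (Nat.dvd_one.mp h6)
  · intro hq
    rcases (Nat.coprime_or_dvd_of_prime hq (Nat.factorial B)) with h | h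
    · exact h
    · have := (Nat.Prime.dvd_factorial hq).mp h
      omega

theorem p_succ {n q : ℕ} (hq : q.Prime) (h1 : p n < q)
    (h2 : ∀ r, p n < r → r < q → ¬ r.Prime) : p (n + 1) = q := by
  unfold p at *
  rw [Nat.nth_eq_sInf]
  apply le_antisymm
  · apply Nat.sInf_le
    refine ⟨hq, fun k hk => ?_⟩
    exact lt_of_le_of_lt ((Nat.nth_monotone Nat.infinite_setOfPred_prime) (by omega)) h1
  · apply le_csInf
    · exact ⟨q, hq, fun k hk =>
        lt_of_le_of_lt ((Nat.nth_monotone Nat.infinite_setOfPred_prime) (by omega)) h1⟩
    · rintro x ⟨hx1, hx2⟩
      by_contra hlt
      push Not at hlt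
      exact h2 x (hx2 n (by omega)) hlt hx1

/-- the state `(q, d, pg, n, u, v)` is correct -/
structure Inv (q d pg n u v : ℕ) : Prop where
  n1 : 1 ≤ n
  lt : p n + d = q
  d0 : 0 < d
  np : ∀ r, p n < r → r < q → ¬ r.Prime
  gap : p (n - 1) + pg = p n
  sc : a n = (u : ℤ) - v

/-- upward steps -/
def up (pg d u : ℕ) : ℕ := bif Nat.blt pg d then Nat.succ u else u
/-- downward steps -/
def dn (pg d v : ℕ) : ℕ := bif Nat.blt d pg then Nat.succ v else v

theorem Inv.skip {q d pg n u v : ℕ} (h : Inv q d pg n u v) (hq : ¬ q.Prime) :
    Inv (q + 1) (d + 1) pg n u v := by
  obtain ⟨h1, h2, h3, h4, h5, h6⟩ := h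
  refine ⟨h1, by omega, by omega, fun r hr1 hr2 => ?_, h5, h6⟩
  rcases Nat.lt_or_ge r q with h | h
  · exact h4 r hr1 h
  · obtain rfl : r = q := by omega
    exact hq

theorem Inv.hit {q d pg n u v : ℕ} (h : Inv q d pg n u v) (hq : q.Prime) :
    Inv (q + 1) 1 d (n + 1) (up pg d u) (dn pg d v) := by
  obtain ⟨h1, h2, h3, h4, h5, h6⟩ := h
  have hp : p (n + 1) = q := p_succ hq (by omega) h4
  refine ⟨by omega, by omega, by omega, fun r hr1 hr2 => by omega, ?_, ?_⟩
  · rw [Nat.add_sub_cancel, hp]
    exact h2
  · have hg1 : g (n + 1) = d := by
      unfold g
      rw [Nat.add_sub_cancel, hp]
      omega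
    have hg2 : g n = pg := by
      unfold g
      omega
    have ha : a (n + 1) = a n + Int.sign (g (n + 1) - g n) := by
      unfold a
      rw [Finset.sum_Icc_succ_top (by omega), Nat.add_sub_cancel]
    rw [ha, h6, hg1, hg2]
    unfold up dn
    rcases lt_trichotomy pg d with h | h | h
    · have e1 : Nat.blt pg d = true := by rw [Nat.blt_eq]; exact h
      have e2 : Nat.blt d pg = false := by
        rw [← Bool.not_eq_true, Nat.blt_eq]; omega
      rw [e1, e2, Int.sign_eq_one_of_pos (by omega)]
      simp only [cond_true, cond_false]
      push_cast
      ring
    · subst h
      have e1 : Nat.blt pg pg = false := by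
        rw [← Bool.not_eq_true, Nat.blt_eq]; omega
      rw [e1]
      simp
    · have e1 : Nat.blt d pg = true := by rw [Nat.blt_eq]; exact h
      have e2 : Nat.blt pg d = false := by
        rw [← Bool.not_eq_true, Nat.blt_eq]; omega
      rw [e1, e2, Int.sign_eq_neg_one_of_neg (by omega)]
      simp only [cond_true, cond_false]
      push_cast
      ring

/-- the computation -/
def loop (G : ℕ) (f : ℕ → ℕ → ℕ → ℕ → ℕ → ℕ → Bool) (k : ℕ) : ℕ → ℕ → ℕ → ℕ → ℕ → ℕ → Bool :=
  Nat.rec f (fun _ ih q d pg n u v =>
    bif Nat.beq (Nat.gcd q G) 1 then
      bif Nat.beq (Nat.gcd (Nat.add q 2) G) 1 then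
        ih (Nat.add q 6) 4 2 (Nat.add n 2) (up d 2 (up pg d u)) (dn d 2 (dn pg d v))
      else ih (Nat.add q 6) 6 d (Nat.add n 1) (up pg d u) (dn pg d v)
    else
      bif Nat.beq (Nat.gcd (Nat.add q 2) G) 1 then
        ih (Nat.add q 6) 4 (Nat.add d 2) (Nat.add n 1) (up pg (Nat.add d 2) u)
          (dn pg (Nat.add d 2) v)
      else ih (Nat.add q 6) (Nat.add d 6) pg n u v) k

/-- the final test of a chunk -/
def fin (q' d' pg' n' u' v' : ℕ) : ℕ → ℕ → ℕ → ℕ → ℕ → ℕ → Bool := fun q d pg n u v =>
  Nat.beq q q' && Nat.beq d d' && Nat.beq pg pg' && Nat.beq n n' && Nat.beq u u' && Nat.beq v v'

theorem nprime_even {q : ℕ} (h : 2 < q) (h2 : q % 2 = 0) : ¬ q.Prime := by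
  intro hp
  have := (Nat.prime_dvd_prime_iff_eq Nat.prime_two hp).mp (Nat.dvd_of_mod_eq_zero h2)
  omega

theorem nprime_three {q : ℕ} (h : 3 < q) (h2 : q % 3 = 0) : ¬ q.Prime := by
  intro hp
  have := (Nat.prime_dvd_prime_iff_eq Nat.prime_three hp).mp (Nat.dvd_of_mod_eq_zero h2)
  omega

theorem loop_spec {G B : ℕ} (hG : G = Nat.factorial B) (hB : 1 ≤ B)
    (q' d' pg' n' u' v' : ℕ) (k : ℕ) : ∀ q d pg n u v : ℕ,
    Inv q d pg n u v → q % 6 = 5 → B < q → q + 6 * k < (B + 1) * (B + 1) →
    loop G (fin q' d' pg' n' u' v') k q d pg n u v = true → Inv q' d' pg' n' u' v' := by
  induction k with
  | zero =>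
    intro q d pg n u v hI _ _ _ h
    have h' : fin q' d' pg' n' u' v' q d pg n u v = true := h
    unfold fin at h'
    simp only [Bool.and_eq_true, Nat.beq_eq] at h'
    obtain ⟨⟨⟨⟨⟨rfl, rfl⟩, rfl⟩, rfl⟩, rfl⟩, rfl⟩ := h'
    exact hI
  | succ k ih =>
    intro q d pg n u v hI h6 hq1 hq2 h
    have h' : (bif Nat.beq (Nat.gcd q G) 1 then
      bif Nat.beq (Nat.gcd (Nat.add q 2) G) 1 then
        loop G (fin q' d' pg' n' u' v') k (Nat.add q 6) 4 2 (Nat.add n 2)
          (up d 2 (up pg d u)) (dn d 2 (dn pg d v))
      else loop G (fin q' d' pg' n' u' v') k (Nat.add q 6) 6 d (Nat.add n 1)
          (up pg d u) (dn pg d v)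
      else
      bif Nat.beq (Nat.gcd (Nat.add q 2) G) 1 then
        loop G (fin q' d' pg' n' u' v') k (Nat.add q 6) 4 (Nat.add d 2) (Nat.add n 1)
          (up pg (Nat.add d 2) u) (dn pg (Nat.add d 2) v)
      else loop G (fin q' d' pg' n' u' v') k (Nat.add q 6) (Nat.add d 6) pg n u v) = true := h
    have t1 := test_iff (q := q) hG hq1 (by omega) hB
    have t2 := test_iff (q := q + 2) hG (by omega) (by omega) hB
    have e1 : ¬ (q + 1).Prime := nprime_even (by omega) (by omega)
    have e3 : ¬ (q + 3).Prime := nprime_even (by omega) (by omega)
    have e4 : ¬ (q + 4).Prime := nprime_three (by omega) (by omega)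
    have e5 : ¬ (q + 5).Prime := nprime_even (by omega) (by omega)
    simp only [Nat.add_eq] at h'
    by_cases hp1 : q.Prime
    · rw [t1.mpr hp1, cond_true] at h'
      by_cases hp2 : (q + 2).Prime
      · rw [t2.mpr hp2, cond_true] at h'
        exact ih _ _ _ _ _ _ ((((((hI.hit hp1).skip e1).hit hp2).skip e3).skip e4).skip e5)
          (by omega) (by omega) (by omega) h'
      · have t2' : Nat.beq (Nat.gcd (q + 2) G) 1 = false := by
          rw [← Bool.not_eq_true, t2]; exact hp2
        rw [t2', cond_false] at h'
        exact ih _ _ _ _ _ _ ((((((hI.hit hp1).skip e1).skip hp2).skip e3).skip e4).skip e5)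
          (by omega) (by omega) (by omega) h'
    · have t1' : Nat.beq (Nat.gcd q G) 1 = false := by
        rw [← Bool.not_eq_true, t1]; exact hp1
      rw [t1', cond_false] at h'
      by_cases hp2 : (q + 2).Prime
      · rw [t2.mpr hp2, cond_true] at h'
        exact ih _ _ _ _ _ _ ((((((hI.skip hp1).skip e1).hit hp2).skip e3).skip e4).skip e5)
          (by omega) (by omega) (by omega) h'
      · have t2' : Nat.beq (Nat.gcd (q + 2) G) 1 = false := by
          rw [← Bool.not_eq_true, t2]; exact hp2
        rw [t2', cond_false] at h'
        exact ih _ _ _ _ _ _ ((((((hI.skip hp1).skip e1).skip hp2).skip e3).skip e4).skip e5)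
          (by omega) (by omega) (by omega) h'

theorem inv4 : Inv 4 1 1 1 0 0 := by
  have h0 : p 0 = 2 := Nat.nth_prime_zero_eq_two
  have h1 : p 1 = 3 := Nat.nth_prime_one_eq_three
  refine ⟨le_rfl, by rw [h1], by norm_num, fun r hr1 hr2 => ?_, ?_, ?_⟩
  · rw [h1] at hr1
    omega
  · rw [Nat.sub_self, h0, h1]
  · unfold a
    simp

theorem inv11 : Inv 11 4 2 3 1 0 := by
  have h := (((((((inv4.skip (by norm_num)).hit (by norm_num)).skip (by norm_num)).hit
    (by norm_num)).skip (by norm_num)).skip (by norm_num)).skip (by norm_num))
  exact h

end Pool.Agent.X29.Tug
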